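import Mathlib
import Pool.Agent.Helper62.LH.StA

/-!
# Project LH (MP_087a81_gt), module FRB: the weighted divergence of the mollification tends to zero
-/

set_option autoImplicit false

open Set Filter Topology MeasureTheory
open scoped ContDiff ENNReal

namespace Pool.Agent.Helper13.LH

open Helper62.LH

namespace Frb

theorem gi_symm {n : ℕ} {g : E n → Bl n} (hg : IsMet g) (x : E n) (i j : Fin n) :
    gi g x i j = gi g x j i := by
  have h : (gm g x).transpose = gm g x := by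
    ext a b
    simp only [gm, Matrix.transpose_apply, Matrix.of_apply]
    exact hg.symm x _ _
  have h2 : (gi g x).transpose = gi g x := by
    rw [gi, Matrix.transpose_nonsing_inv, h]
  have h3 := congrFun (congrFun h2 j) i
  rw [Matrix.transpose_apply] at h3
  exact h3

theorem mf_ee {n : ℕ} (ρ : E n → ℝ) (ε : ℝ) (θ : E n → Dl n) (x : E n) (j : Fin n) :
    mf ρ ε θ x (ee j) = mo ρ ε (fun y => θ y (ee j)) x := by
  have h : ∀ k : Fin n, (EuclideanSpace.proj k : Dl n) (ee j) = if k = j then 1 else 0 := by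
    intro k
    show (ee j : E n) k = _
    rw [ee, EuclideanSpace.single, PiLp.single_apply]
  simp only [mf, FunLike.coe_sum, Finset.sum_apply, FunLike.coe_smul,
    Pi.smul_apply, h, smul_eq_mul, mul_ite, mul_one, mul_zero, Finset.sum_ite_eq',
    Finset.mem_univ, if_true]

theorem l2l_mul {n : ℕ} {a u : E n → ℝ} (ha : Continuous a) (hu : L2l u) :
    L2l (fun x => a x * u x) := by
  refine ⟨ha.aestronglyMeasurable.mul hu.1, fun K hK => ?_⟩
  have h := (hu.2 K hK).continuousOn_mul (g := fun x => a x ^ 2) (ha.pow 2).continuousOn hK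
  refine h.congr_fun ?_ hK.measurableSet
  intro x _
  simp only [mul_pow]

theorem l2l_loc {n : ℕ} {u : E n → ℝ} (hu : L2l u) : LocallyIntegrable u volume := by
  rw [locallyIntegrable_iff]
  intro K hK
  have h1 : IntegrableOn (fun _ : E n => (1 : ℝ)) K := by
    rw [integrableOn_const_iff]
    right
    exact hK.measure_lt_top
  have h2 : IntegrableOn (fun x => (1 : ℝ) + u x ^ 2) K := h1.add (hu.2 K hK)
  refine Integrable.mono' h2 hu.1.restrict ?_
  filter_upwards with x
  rw [Real.norm_eq_abs]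
  nlinarith [sq_nonneg (|u x| - 1), sq_abs (u x), abs_nonneg (u x)]

theorem sub_int {n : ℕ} {ε : ℝ} (x : E n) (H : E n → ℝ) :
    ∫ y, H (x - ε • y) = |(ε ^ Module.finrank ℝ (E n))⁻¹| * ∫ z, H z := by
  have h1 := Measure.integral_comp_smul (volume : Measure (E n)) (fun w => H (x - w)) ε
  rw [h1, integral_sub_left_eq_self H volume x, smul_eq_mul]

theorem dder {n : ℕ} {ρ : E n → ℝ} (hρ : Mol ρ) {ε : ℝ} (x z v : E n) :
    fderiv ℝ (fun z => ρ (ε⁻¹ • (x - z))) z v = -(ε⁻¹ * fderiv ℝ ρ (ε⁻¹ • (x - z)) v) := by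
  have h1 : HasFDerivAt (fun z : E n => ε⁻¹ • (x - z))
      (-(ε⁻¹ • ContinuousLinearMap.id ℝ (E n))) z := by
    have h2 : HasFDerivAt (fun z : E n => x - z) (-(ContinuousLinearMap.id ℝ (E n))) z :=
      (hasFDerivAt_id z).const_sub x
    have h3 := h2.const_smul (ε⁻¹)
    rw [smul_neg] at h3
    exact h3
  have h4 : HasFDerivAt ρ (fderiv ℝ ρ (ε⁻¹ • (x - z))) (ε⁻¹ • (x - z)) :=
    (hρ.smooth.differentiable (by simp)).differentiableAt.hasFDerivAt
  have h5 := h4.comp z h1
  have h6 := h5.fderiv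
  have h7 : fderiv ℝ (fun z => ρ (ε⁻¹ • (x - z))) z
      = (fderiv ℝ ρ (ε⁻¹ • (x - z))).comp (-(ε⁻¹ • ContinuousLinearMap.id ℝ (E n))) := h6
  rw [h7]
  simp

theorem cc_u {n : ℕ} {ρ : E n → ℝ} (hρ : Mol ρ) {ε : ℝ} (hε : 0 < ε) (x : E n) :
    Cc (fun z => ρ (ε⁻¹ • (x - z))) := by
  constructor
  · apply hρ.smooth.comp
    exact (contDiff_const.sub contDiff_id).const_smul _
  · apply HasCompactSupport.of_support_subset_isCompact (isCompact_closedBall x ε)
    intro z hz
    rw [Function.mem_support] at hz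
    by_contra hcon
    apply hz
    apply hρ.supp
    rw [Metric.mem_closedBall, not_le, dist_comm, dist_eq_norm] at hcon
    rw [norm_smul, norm_inv, Real.norm_eq_abs, abs_of_pos hε, ← div_eq_inv_mul, lt_div_iff₀ hε]
    linarith

theorem zero {n : ℕ} {g : E n → Bl n} (hg : IsMet g) {ρ : E n → ℝ} (hρ : Mol ρ)
    {W : E n → ℝ} (hW : Continuous W) (hgi : ∀ i j, Continuous (fun x => gi g x i j))
    {θ : E n → Dl n} (hθ : L2f θ)
    (hwk : ∀ u, Cc u → ∫ x, ip g x (θ x) (fderiv ℝ u x) * W x = 0)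
    {ε : ℝ} (hε : 0 < ε) (x : E n) :
    ∑ i, ∑ j, ∫ y, (fderiv ℝ ρ y (ee i)) *
      ((W (x - ε • y) * gi g (x - ε • y) i j) * θ (x - ε • y) (ee j)) / ε = 0 := by
  set G : Fin n → Fin n → E n → ℝ := fun i j z =>
    (fderiv ℝ ρ (ε⁻¹ • (x - z)) (ee i)) * ((W z * gi g z i j) * θ z (ee j)) / ε with hG
  have h1 : ∀ i j, ∫ y, (fderiv ℝ ρ y (ee i)) *
      ((W (x - ε • y) * gi g (x - ε • y) i j) * θ (x - ε • y) (ee j)) / ε
      = |(ε ^ Module.finrank ℝ (E n))⁻¹| * ∫ z, G i j z := by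
    intro i j
    rw [← sub_int]
    congr 1
    funext y
    simp only [hG]
    have : ε⁻¹ • (x - (x - ε • y)) = y := by
      rw [sub_sub_cancel, smul_smul, inv_mul_cancel₀ hε.ne', one_smul]
    rw [this]
  simp only [h1]
  simp only [← Finset.mul_sum]
  have hcc := cc_u hρ hε x
  have hint : ∀ i j, Integrable (G i j) := by
    intro i j
    have h2 : L2l (fun z => (W z * gi g z i j) * θ z (ee j)) :=
      l2l_mul (hW.mul (hgi i j)) (hθ j)
    have h3 : Continuous (fun z => fderiv ℝ (fun z => ρ (ε⁻¹ • (x - z))) z (ee i)) :=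
      (hcc.1.continuous_fderiv (by simp)).clm_apply continuous_const
    have h4 : HasCompactSupport (fun z => fderiv ℝ (fun z => ρ (ε⁻¹ • (x - z))) z (ee i)) :=
      hcc.2.fderiv_apply ℝ (ee i)
    have h5 := (l2l_loc h2).integrable_smul_left_of_hasCompactSupport h3 h4
    refine (h5.neg).congr ?_
    filter_upwards with z
    simp only [dder hρ, smul_eq_mul, hG, Pi.neg_apply]
    field_simp
  have h6 : ∑ i, ∑ j, ∫ z, G i j z = ∫ z, ∑ i, ∑ j, G i j z := by
    rw [integral_finsetSum _ (fun i _ => integrable_finsetSum _ (fun j _ => hint i j))]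
    refine Finset.sum_congr rfl fun i _ => ?_
    rw [integral_finsetSum _ (fun j _ => hint i j)]
  rw [h6]
  have h7 : ∀ z, ∑ i, ∑ j, G i j z
      = -(ip g z (θ z) (fderiv ℝ (fun z => ρ (ε⁻¹ • (x - z))) z) * W z) := by
    intro z
    rw [Finset.sum_comm]
    simp only [ip, trg, dder hρ, hG]
    rw [Finset.sum_mul, ← Finset.sum_neg_distrib]
    refine Finset.sum_congr rfl fun j _ => ?_
    rw [Finset.sum_mul, ← Finset.sum_neg_distrib]
    refine Finset.sum_congr rfl fun i _ => ?_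
    rw [gi_symm hg z i j]
    field_simp
  simp only [h7, integral_neg, hwk _ hcc, neg_zero, mul_zero]

end Frb

open Frb

theorem hFrb (hShp : StShp) (hDlv : StDlv) (hMos : StMos) (hFrc : StFrc) (hDlf : StDlf) :
    StFrb := by
  intro n g Γ hg hΓ ρ hρ f hf θ hθ hwk K hK
  obtain ⟨hvs, hvp, -⟩ := hDlv n g Γ hg hΓ
  obtain ⟨-, -, hgis, -, -, -⟩ := hShp n g Γ hg hΓ
  set W : E n → ℝ := fun x => Real.exp (-f x) * vol g x with hWdef
  have hWs : ContDiff ℝ ∞ W := (Real.contDiff_exp.comp hf.neg).mul hvs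
  have hWp : ∀ x, 0 < W x := fun x => mul_pos (Real.exp_pos _) (hvp x)
  set a : Fin n → Fin n → E n → ℝ := fun i j y => W y * gi g y i j with ha
  have has : ∀ i j, ContDiff ℝ ∞ (a i j) := fun i j => hWs.mul (hgis i j)
  set th : Fin n → E n → ℝ := fun j y => θ y (ee j) with hth
  set r : ℝ → Fin n × Fin n → E n → ℝ := fun ε p x =>
    fderiv ℝ (fun z => a p.1 p.2 z * mo ρ ε (th p.2) z) x (ee p.1) -
      ∫ y, (fderiv ℝ ρ y (ee p.1)) * (a p.1 p.2 (x - ε • y) * th p.2 (x - ε • y)) / ε with hr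
  have hrc : ∀ ε, 0 < ε → ∀ p, Continuous (r ε p) := by
    intro ε hε p
    have h1 := hMos n ρ hρ (th p.2) (hθ p.2) ε hε
    have h2 := hMos n ρ hρ (fun z => a p.1 p.2 z * th p.2 z)
      (l2l_mul (has p.1 p.2).continuous (hθ p.2)) ε hε
    have h3 : ContDiff ℝ ∞ (fun z => a p.1 p.2 z * mo ρ ε (th p.2) z) := (has p.1 p.2).mul h1.1
    have h4 : r ε p = fun x => fderiv ℝ (fun z => a p.1 p.2 z * mo ρ ε (th p.2) z) x (ee p.1) -
        fderiv ℝ (mo ρ ε (fun z => a p.1 p.2 z * th p.2 z)) x (ee p.1) := by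
      funext x
      rw [h2.2 x (ee p.1)]
    rw [h4]
    exact ((h3.continuous_fderiv (by simp)).clm_apply continuous_const).sub
      ((h2.1.continuous_fderiv (by simp)).clm_apply continuous_const)
  have hlim : ∀ p, Tendsto (fun ε : ℝ => ∫ x in K, r ε p x ^ 2) (𝓝[>] 0) (𝓝 0) := fun p =>
    hFrc n ρ hρ (a p.1 p.2) (has p.1 p.2) (th p.2) (hθ p.2) (ee p.1) K hK
  -- the divergence
  have hdl : ∀ ε, 0 < ε → ∀ x, dl g Γ f (mf ρ ε θ) x * W x = ∑ p, r ε p x := by
    intro ε hε x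
    have hs : ContDiff ℝ ∞ (mf ρ ε θ) := by
      have h5 : mf ρ ε θ = fun x => ∑ j, mo ρ ε (th j) x • (EuclideanSpace.proj j : Dl n) := rfl
      rw [h5]
      apply ContDiff.sum
      intro j _
      exact (hMos n ρ hρ (th j) (hθ j) ε hε).1.smul contDiff_const
    have h6 := hDlf n g Γ hg hΓ f hf (mf ρ ε θ) (hs.of_le (by simp)) x
    have h7 : dl g Γ f (mf ρ ε θ) x * W x =
        ∑ i, ∑ j, fderiv ℝ (fun y => a i j y * mo ρ ε (th j) y) x (ee i) := by
      rw [h6]
      refine Finset.sum_congr rfl fun i _ => Finset.sum_congr rfl fun j _ => ?_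
      congr 2
      funext y
      rw [mf_ee]
    have h8 := zero hg hρ hWs.continuous (fun i j => (hgis i j).continuous) hθ hwk hε x
    rw [h7, Fintype.sum_prod_type]
    simp only [hr]
    have h9 : ∑ i, ∑ j, (fderiv ℝ (fun z => a i j z * mo ρ ε (th j) z) x (ee i) -
        ∫ y, (fderiv ℝ ρ y (ee i)) * (a i j (x - ε • y) * th j (x - ε • y)) / ε)
        = (∑ i, ∑ j, fderiv ℝ (fun z => a i j z * mo ρ ε (th j) z) x (ee i)) -
          ∑ i, ∑ j, ∫ y, (fderiv ℝ ρ y (ee i)) * (a i j (x - ε • y) * th j (x - ε • y)) / ε := by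
      rw [← Finset.sum_sub_distrib]
      refine Finset.sum_congr rfl fun i _ => ?_
      rw [← Finset.sum_sub_distrib]
    rw [h9]
    have h10 : ∑ i, ∑ j, ∫ y, (fderiv ℝ ρ y (ee i)) *
        (a i j (x - ε • y) * th j (x - ε • y)) / ε = 0 := h8
    rw [h10, sub_zero]
  -- bound of `1 / W` on `K`
  obtain ⟨C, hC0, hC⟩ : ∃ C : ℝ, 0 ≤ C ∧ ∀ x ∈ K, (W x)⁻¹ ≤ C := by
    have hcont : ContinuousOn (fun x => (W x)⁻¹) K :=
      (hWs.continuous.inv₀ (fun x => (hWp x).ne')).continuousOn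
    obtain ⟨C, hC⟩ := hK.exists_bound_of_continuousOn hcont
    refine ⟨max C 0, le_max_right _ _, fun x hx => ?_⟩
    exact ((le_abs_self _).trans (hC x hx)).trans (le_max_left _ _)
  have hbound : ∀ ε, 0 < ε → ∫ x in K, dl g Γ f (mf ρ ε θ) x ^ 2 * W x
      ≤ C * (Fintype.card (Fin n × Fin n) * ∑ p, ∫ x in K, r ε p x ^ 2) := by
    intro ε hε
    have h11 : ∀ x, dl g Γ f (mf ρ ε θ) x ^ 2 * W x = (∑ p, r ε p x) ^ 2 * (W x)⁻¹ := by
      intro x
      rw [← hdl ε hε x]
      have := (hWp x).ne'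
      field_simp
    simp only [h11]
    have hci : ∀ p, IntegrableOn (fun x => r ε p x ^ 2) K := fun p =>
      ((hrc ε hε p).pow 2).continuousOn.integrableOn_compact hK
    have h12 : C * (Fintype.card (Fin n × Fin n) * ∑ p, ∫ x in K, r ε p x ^ 2)
        = ∫ x in K, C * (Fintype.card (Fin n × Fin n) * ∑ p, r ε p x ^ 2) := by
      rw [integral_const_mul, integral_const_mul, integral_finsetSum _ (fun p _ => hci p)]
    rw [h12]
    have hcs : Continuous (fun x => ∑ p, r ε p x) := continuous_finsetSum _ fun p _ => hrc ε hε p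
    apply setIntegral_mono_on
    · exact ((hcs.pow 2).mul (hWs.continuous.inv₀ (fun x => (hWp x).ne'))).continuousOn.integrableOn_compact hK
    · exact (continuous_const.mul (continuous_const.mul
        (continuous_finsetSum _ fun p _ => (hrc ε hε p).pow 2))).continuousOn.integrableOn_compact hK
    · exact hK.measurableSet
    · intro x hx
      have h13 : (∑ p, r ε p x) ^ 2 ≤ Fintype.card (Fin n × Fin n) * ∑ p, r ε p x ^ 2 := by
        have := sq_sum_le_card_mul_sum_sq (s := (Finset.univ : Finset (Fin n × Fin n)))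
          (f := fun p => r ε p x)
        rwa [Finset.card_univ] at this
      have h14 : 0 ≤ (∑ p, r ε p x) ^ 2 := sq_nonneg _
      calc (∑ p, r ε p x) ^ 2 * (W x)⁻¹ ≤ (∑ p, r ε p x) ^ 2 * C :=
            mul_le_mul_of_nonneg_left (hC x hx) h14
        _ ≤ (Fintype.card (Fin n × Fin n) * ∑ p, r ε p x ^ 2) * C :=
            mul_le_mul_of_nonneg_right h13 hC0
        _ = C * (Fintype.card (Fin n × Fin n) * ∑ p, r ε p x ^ 2) := mul_comm _ _
  have hzero : Tendsto (fun ε : ℝ =>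
      C * (Fintype.card (Fin n × Fin n) * ∑ p, ∫ x in K, r ε p x ^ 2)) (𝓝[>] 0) (𝓝 0) := by
    have h15 : Tendsto (fun ε : ℝ => ∑ p, ∫ x in K, r ε p x ^ 2) (𝓝[>] 0)
        (𝓝 (∑ _p : Fin n × Fin n, (0 : ℝ))) := tendsto_finsetSum _ fun p _ => hlim p
    rw [Finset.sum_const_zero] at h15
    have h16 := (h15.const_mul (Fintype.card (Fin n × Fin n) : ℝ)).const_mul C
    simpa using h16
  apply squeeze_zero' _ _ hzero
  · filter_upwards with ε
    apply setIntegral_nonneg hK.measurableSet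
    intro x _
    exact mul_nonneg (sq_nonneg _) (hWp x).le
  · filter_upwards [self_mem_nhdsWithin] with ε hε
    exact hbound ε hε

end Pool.Agent.Helper13.LH
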