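import Mathlib
import Pool.Agent.Helper62.LH.StA

/-!
# Project LH (MP_087a81_gt), module RIC: nonnegative Ricci curvature
-/

set_option autoImplicit false

open Set Filter Topology MeasureTheory
open scoped ContDiff ENNReal

namespace Pool.Agent.Helper13.LH

open Helper62.LH

theorem hRic (hOnb : StOnb) (hTr : StTr) : StRic := by
  intro n g Γ hg _ hsec x v
  obtain ⟨f, hf⟩ := hOnb n g hg x
  have hadd : ∀ a b : E n, Rm Γ x (a + b) v v = Rm Γ x a v v + Rm Γ x b v v := by
    intro a b
    simp only [Rm, map_add, ContinuousLinearMap.add_apply]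
    abel
  have hsmul : ∀ (c : ℝ) (a : E n), Rm Γ x (c • a) v v = c • Rm Γ x a v v := by
    intro c a
    simp only [Rm, map_smul, ContinuousLinearMap.smul_apply, smul_add, smul_sub]
  let L₀ : E n →ₗ[ℝ] E n :=
    { toFun := fun u => Rm Γ x u v v
      map_add' := hadd
      map_smul' := hsmul }
  have h := (hTr n g hg x f hf).2.2.2.2 (LinearMap.toContinuousLinearMap L₀)
  have h' : ∑ i, (Rm Γ x (ee i) v v) i = ∑ i, g x (Rm Γ x (f i) v v) (f i) := h
  rw [h']
  exact Finset.sum_nonneg fun i _ => hsec x (f i) v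

end Pool.Agent.Helper13.LH
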